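import Pool.Agent.W695.KH.Final
import Pool.Agent.W695.KH.Per
import Pool.Agent.W695.KH.Wrap
import Pool.Agent.X43.KR.Fin

/-!
# The hyperplane conjecture of Kannan, Lovasz and Simonovits for convex sets symmetric along a tower of
partitions

For all symmetric open bounded convex sets in `ℝ^n` invariant under a set `Q` of permutations of the
coordinates, for a tower of `k` partitions of the coordinates with symmetries in `Q`: the blocks of
level `0` are the single coordinates, every block of level `j + 1` is a union of blocks of level `j`,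
and any two blocks of level `j` in the same block of level `j + 1` can be exchanged by a permutation
in `Q` which leaves the other blocks of level `j` in place. Blocks of the same level may have
different sizes and shapes, and no symmetry is assumed between the `q` blocks of the last level.

The best central hyperplane cut is at most `C^(k²) √K ∏_j (1 + T_j)` times the perimeter of any set of
half the volume, where `K = q` unconditionally, or `K` is the constant in the KLS inequality on `ℝ^q`
for the log-concave densities invariant under the permutations of the `q` blocks induced by `Q`, and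
`∑ exp (-T_j m) ≤ 1`, the sum over the blocks of level `j + 1` which consist of `m ≥ 2` blocks of
level `j`.

Method: the weak Poincare inequality behind `Pool.Agent.Results.MP_6d896a_gt.BlockSymmetric` and the
formalised implication from Poincare to Cheeger inequalities, the De Giorgi perimeter by mollification
and the bound for the central section of an even log-concave marginal of the starting files (modules
`KH`).
-/

set_option autoImplicit false

namespace Pool.Agent.Results.MP_dc1397_gt.BlockSymmetric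

open MeasureTheory Set
open scoped ENNReal InnerProductSpace

/-- `ℝ^n` -/
abbrev E (n : ℕ) : Type := EuclideanSpace ℝ (Fin n)

/-- `Ω = -Ω` does not change under the permutations of the coordinates in `Q`. -/
structure Invariant {n : ℕ} (Q : Set (Equiv.Perm (Fin n))) (Ω : Set (E n)) : Prop where
  perm : ∀ σ ∈ Q, ∀ x y : E n, (∀ i, y i = x (σ i)) → (x ∈ Ω ↔ y ∈ Ω)
  symm : ∀ x ∈ Ω, -x ∈ Ω

/-- the Lebesgue measure of a Euclidean space -/
noncomputable def lebesgue (F : Type) [NormedAddCommGroup F] [InnerProductSpace ℝ F]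
    [FiniteDimensional ℝ F] [MeasurableSpace F] [BorelSpace F] : Measure F := volume

/-- the Lebesgue measure (of the Euclidean space `W`) of the section `Ω ∩ W` by a subspace `W` -/
noncomputable def areaIn {F : Type} [NormedAddCommGroup F] [InnerProductSpace ℝ F]
    [FiniteDimensional ℝ F] [MeasurableSpace F] [BorelSpace F] (W : Submodule ℝ F) (Ω : Set F) :
    ℝ≥0∞ := lebesgue W {y : W | (y : F) ∈ Ω}

section defs

variable {κ : Type} [Fintype κ]

/-- an open, convex, bounded, nonempty set -/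
structure Domain (Ω : Set (EuclideanSpace ℝ κ)) : Prop where
  op : IsOpen Ω
  conv : Convex ℝ Ω
  bdd : Bornology.IsBounded Ω
  ne : Ω.Nonempty

open Classical in
/-- divergence of a vector field on `ℝ^κ` -/
noncomputable def divergence (X : EuclideanSpace ℝ κ → EuclideanSpace ℝ κ)
    (x : EuclideanSpace ℝ κ) : ℝ :=
  ∑ i, fderiv ℝ X x (EuclideanSpace.single i 1) i

/-- `C¹` vector fields with compact support in `Ω` and `‖X‖ ≤ 1` -/
structure Test (Ω : Set (EuclideanSpace ℝ κ)) (X : EuclideanSpace ℝ κ → EuclideanSpace ℝ κ) :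
    Prop where
  diff : ContDiff ℝ 1 X
  comp : HasCompactSupport X
  sub : tsupport X ⊆ Ω
  le : ∀ x, ‖X x‖ ≤ 1

/-- the (De Giorgi) perimeter `P(E; Ω)` of `E` relative to the open set `Ω` -/
noncomputable def perimeter (E Ω : Set (EuclideanSpace ℝ κ)) : ℝ≥0∞ :=
  ⨆ (X : EuclideanSpace ℝ κ → EuclideanSpace ℝ κ) (_ : Test Ω X),
    ENNReal.ofReal (∫ x in E, divergence X x)

/-- the area (Lebesgue measure in the hyperplane `a^⊥`) of the central section of `Ω` by `a^⊥` -/
noncomputable def sectionArea (Ω : Set (EuclideanSpace ℝ κ)) (a : EuclideanSpace ℝ κ) : ℝ≥0∞ :=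
  areaIn (Submodule.span ℝ {a})ᗮ Ω

/-- some central hyperplane section has area at most `K P(E; Ω)` for every measurable `E ⊆ Ω` with
`|E| = |Ω| / 2` -/
def HyperplaneBound (K : ℝ) (Ω : Set (EuclideanSpace ℝ κ)) : Prop :=
  ∃ a : EuclideanSpace ℝ κ, a ≠ 0 ∧ ∀ E : Set (EuclideanSpace ℝ κ), MeasurableSet E → E ⊆ Ω →
    volume E = volume Ω / 2 → sectionArea Ω a ≤ ENNReal.ofReal K * perimeter E Ω

/-- the perimeter is the one used in the proof -/
theorem perimeter_eq (E Ω : Set (EuclideanSpace ℝ κ)) :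
    Pool.Agent.W695.KH.per E Ω = perimeter E Ω := by
  unfold perimeter Pool.Agent.W695.KH.per
  refine iSup_congr fun X => ?_
  refine iSup_congr_Prop ⟨fun h => ⟨h.1, h.2.1, h.2.2.1, h.2.2.2⟩,
    fun h => ⟨h.diff, h.comp, h.sub, h.le⟩⟩ fun _ => rfl

end defs

/-- `ρ` is a log-concave density on `ℝ^n` invariant under the permutations of the coordinates in
`P`. -/
structure Density {n : ℕ} (P : Set (Equiv.Perm (Fin n))) (ρ : E n → ℝ) : Prop where
  nonneg : ∀ x, 0 ≤ ρ x
  meas : Measurable ρ
  logc : ∀ x y, ∀ t : ℝ, 0 < t → t < 1 → ρ x ^ (1 - t) * ρ y ^ t ≤ ρ ((1 - t) • x + t • y)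
  inv : ∀ σ ∈ P, ∀ x y : E n, (∀ i, y i = x (σ i)) → ρ y = ρ x

/-- `Var ⟪θ, X⟫ ≤ s ‖θ‖²` for all `θ`: the covariance matrix of `μ` has norm at most `s`. -/
def CovLe {n : ℕ} (μ : Measure (E n)) (s : ℝ) : Prop :=
  ∀ θ : E n, ProbabilityTheory.evariance (fun x => ⟪θ, x⟫_ℝ) μ ≤ ENNReal.ofReal (s * ‖θ‖ ^ 2)

/-- Tower of `k` partitions of the coordinates (besides the partition into single coordinates) with
symmetries in `Q`; two coordinates are in the same block of level `j ≤ k` if they have the same label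
`lab j`. -/
structure Tower {n : ℕ} (k : ℕ) (lab : ℕ → Fin n → ℕ) (Q : Set (Equiv.Perm (Fin n))) : Prop where
  /-- the blocks of level `0` are the single coordinates -/
  bot : ∀ x y, lab 0 x = lab 0 y → x = y
  /-- a block of level `j + 1` is a union of blocks of level `j` -/
  mono : ∀ j < k, ∀ x y, lab j x = lab j y → lab (j + 1) x = lab (j + 1) y
  /-- the permutations in `Q` map blocks to blocks -/
  pres : ∀ σ ∈ Q, ∀ j ≤ k, ∀ x y, lab j x = lab j y ↔ lab j (σ x) = lab j (σ y)
  /-- two blocks of level `j` in the same block of level `j + 1` are exchanged by some `σ` in `Q`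
  which leaves all the other blocks of level `j` in place -/
  exch : ∀ j < k, ∀ x y, lab (j + 1) x = lab (j + 1) y → lab j x ≠ lab j y → ∃ σ ∈ Q,
    lab j (σ x) = lab j y ∧ lab j (σ y) = lab j x ∧
      ∀ z, lab j z ≠ lab j x → lab j z ≠ lab j y → lab j (σ z) = lab j z

/-- the number of the blocks of level `j` in the block of level `j + 1` with the label `c` -/
def sub {n : ℕ} (lab : ℕ → Fin n → ℕ) (j c : ℕ) : ℕ :=
  ((Finset.univ.filter fun x => lab (j + 1) x = c).image (lab j)).card

/-- `T_j ≥ 0` and `∑ exp (-T_j m) ≤ 1`, the sum over the blocks of level `j + 1` which consist of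
`m ≥ 2` blocks of level `j`, for all `j < k` -/
def Rates {n : ℕ} (k : ℕ) (lab : ℕ → Fin n → ℕ) (T : ℕ → ℝ) : Prop :=
  ∀ j < k, 0 ≤ T j ∧
    ∑ c ∈ (Finset.univ.image (lab (j + 1))).filter (fun c => 2 ≤ sub lab j c),
      Real.exp (-(T j * sub lab j c)) ≤ 1

/-- the permutations of `q` blocks (the fibres of `top`) induced by the permutations in `Q` -/
def induced {n q : ℕ} (top : Fin n → Fin q) (Q : Set (Equiv.Perm (Fin n))) :
    Set (Equiv.Perm (Fin q)) :=
  {π | ∃ σ ∈ Q, ∀ i, top (σ i) = π (top i)}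

/-- the KLS inequality (spectral gap) with the constant `K` for the log-concave probability densities
of bounded support on `ℝ^q` invariant under the permutations in `P`: `Var f ≤ K s E ‖∇ f‖²` when the
covariance matrix has norm at most `s` -/
def KLS {q : ℕ} (P : Set (Equiv.Perm (Fin q))) (K : ℝ) : Prop :=
  ∀ ρ : E q → ℝ, Density P ρ → (∃ R : ℝ, ∀ x, R < ‖x‖ → ρ x = 0) → ∀ μ : Measure (E q),
    μ = volume.withDensity (fun x => ENNReal.ofReal (ρ x)) → IsProbabilityMeasure μ →
    ∀ s : ℝ, 0 < s → CovLe μ s → ∀ f : E q → ℝ, ContDiff ℝ 1 f →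
      ProbabilityTheory.variance f μ ≤ K * s * ∫ x, ‖fderiv ℝ f x‖ ^ 2 ∂μ

/-- **The hyperplane conjecture for symmetric convex sets invariant along a tower of partitions.** There
is an absolute constant `C` such that for all `k, n ≥ 1`, every tower of `k` partitions of the `n`
coordinates with symmetries in `Q`, with numbers `T_0, …, T_{k-1}` as in `Rates` and `q` blocks of
level `k` (the fibres of `top`), every `K ≥ 1` with `q ≤ K`, or such that the KLS inequality with the
constant `K` holds on `ℝ^q` for the densities invariant under the permutations of the blocks induced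
by `Q`, and every nonempty open bounded `Q`-invariant convex set `Ω = -Ω` in `ℝ^n` there is a central
hyperplane `a^⊥` such that for every measurable `E ⊆ Ω` with `|E| = |Ω| / 2`:
`H(Ω ∩ a^⊥) ≤ C^(k²) √K ∏_{j<k} (1 + T_j) P(E; Ω)`, with `H` the Lebesgue measure of the
hyperplane. -/
theorem result : ∃ C : ℝ, 0 < C ∧ ∀ k n : ℕ, 1 ≤ k → 1 ≤ n → ∀ (lab : ℕ → Fin n → ℕ)
    (Q : Set (Equiv.Perm (Fin n))) (T : ℕ → ℝ), Tower k lab Q → Rates k lab T →
    ∀ (q : ℕ) (top : Fin n → Fin q), Function.Surjective top →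
    (∀ x y, top x = top y ↔ lab k x = lab k y) →
    ∀ K : ℝ, 1 ≤ K → (q : ℝ) ≤ K ∨ KLS (induced top Q) K →
    ∀ Ω : Set (E n), Domain Ω → Invariant Q Ω →
    HyperplaneBound (C ^ (k ^ 2) * (Real.sqrt K * ∏ j ∈ Finset.range k, (1 + T j))) Ω := by
  obtain ⟨C, hC, H⟩ := Pool.Agent.W695.KH.final Pool.Agent.W695.KH.main Pool.Agent.W695.KH.proj
  obtain ⟨C₂, hC₂1, h₂⟩ := Pool.Agent.X43.KR.Tow.weakD
  have hC₂ : 0 < C₂ := by linarith
  refine ⟨(C + 1) * Real.sqrt C₂, by positivity, ?_⟩
  intro k n hk hn lab Q T hTow hR q top htop htl K hK hor Ω hΩ hinv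
  obtain ⟨hop, hco, hbd, hne⟩ := hΩ
  have hyp : Pool.Agent.X43.KR.Tow.Hyp k n lab Q T q top K := by
    refine ⟨hk, hn, ⟨hTow.bot, hTow.mono, hTow.pres, hTow.exch⟩, hR, htop, htl, hK, ?_⟩
    refine hor.imp id fun h => ?_
    intro ρ' h1 h2 h3 h4 h5 h6 s' hs' hcov' g hg
    exact h ρ' ⟨h1, h2, h3, h4⟩ h5 _ rfl ⟨h6⟩ s' hs' hcov' g hg
  obtain ⟨F, hF⟩ : ∃ F : ℝ, F = Pool.Agent.X43.KR.Tow.fac k T K := ⟨_, rfl⟩
  have hF1 : 1 ≤ F := by rw [hF]; exact Pool.Agent.X43.KR.Tow.fac_one hyp.tc hK
  have hfac : 0 < C₂ ^ (k ^ 2) * F := by positivity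
  have hne' : Nonempty (Fin n) := ⟨⟨0, hn⟩⟩
  have h0 : (0 : E n) ∈ Ω := by
    obtain ⟨x, hx⟩ := hne
    have h1 := hco hx (hinv.symm x hx) (by norm_num : (0 : ℝ) ≤ 1 / 2)
      (by norm_num : (0 : ℝ) ≤ 1 / 2) (by norm_num)
    simpa using h1
  have hD := Pool.Agent.X43.KR.Tow.set_of (D := Ω) hinv.perm
  obtain ⟨a, ha, h⟩ := H (Fin n) Ω hop hco hbd h0 hinv.symm (C₂ ^ (k ^ 2) * F) hfac (by
      intro r A hr hr1 hA hprob hnn hmeas hlc hiso s hs hcov v hv hvb
      rw [hF]
      exact h₂ k n lab Q T q top K hyp Ω hD _ hnn hmeas hlc hiso hprob s hs hcov v hv hvb)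
  refine ⟨a, ha, fun E hE hEΩ hvol => ?_⟩
  have h4 := h E hE hEΩ hvol
  rw [perimeter_eq] at h4
  have hprod : 0 ≤ ∏ j ∈ Finset.range k, (1 + T j) := by
    refine Finset.prod_nonneg fun j hj => ?_
    have := (hR j (Finset.mem_range.1 hj)).1
    linarith
  have hsqF : Real.sqrt F = Real.sqrt K * ∏ j ∈ Finset.range k, (1 + T j) := by
    rw [hF]
    unfold Pool.Agent.X43.KR.Tow.fac
    rw [Real.sqrt_mul (by linarith), Finset.prod_pow, Real.sqrt_sq hprod]
  have hsF0 : 0 ≤ Real.sqrt F := Real.sqrt_nonneg _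
  have e : C * Real.sqrt (C₂ ^ (k ^ 2) * F) ≤
      ((C + 1) * Real.sqrt C₂) ^ (k ^ 2) * (Real.sqrt K * ∏ j ∈ Finset.range k, (1 + T j)) := by
    rw [← hsqF, Real.sqrt_mul (by positivity), ← mul_assoc]
    refine mul_le_mul_of_nonneg_right ?_ hsF0
    have h3 : Real.sqrt (C₂ ^ (k ^ 2)) = Real.sqrt C₂ ^ (k ^ 2) := by
      rw [Real.sqrt_eq_iff_mul_self_eq (by positivity) (by positivity), ← mul_pow,
        Real.mul_self_sqrt hC₂.le]
    rw [h3, mul_pow]
    refine mul_le_mul_of_nonneg_right ?_ (by positivity)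
    have hk2 : k ^ 2 ≠ 0 := by positivity
    have h5 : C + 1 ≤ (C + 1) ^ (k ^ 2) := le_self_pow₀ (by linarith) hk2
    linarith
  refine h4.trans ?_
  gcongr

end Pool.Agent.Results.MP_dc1397_gt.BlockSymmetric
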