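import Pool.Agent.X166.DS.Final

/-!
# The hyperplane conjecture for `ℓ_p` sums of 1-symmetric norms and of left-invariant matrix norms

Q1 for the bodies `{∑_{i < N} M_i(x_i)^p ≤ 1}` and `{M_i(x_i) ≤ 1 for all i < N}` and for their symmetric
affine images under maps with kernels of dimension at most `r`. Here the number `N` of the blocks and
their dimensions are arbitrary, `ℝ^d` is identified with the product of the blocks by any linear
isomorphism, and each of the norms `M_i` on the blocks is 1-symmetric (invariant under permutations and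
sign changes of the coordinates) or is a norm on real `a × b` matrices, `1 ≤ b ≤ a`, `3 ≤ a`, with
`M_i(U X) = M_i(X)` for all orthogonal `U` (for instance an orthogonally bi-invariant norm, or the
operator norm from an arbitrary normed space of dimension `b` to `ℓ_2^a`). The constant depends on `p`
and `r` only. The starting results `OneSymmetric` and `OrthogonalInvariant` (of `MP_6d896a_gt`) are
about one block.

Method. (1) Let `Φ_i = M_i^p`. The probability measure with density proportional to `exp (-Φ_i)` on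
`ℝ^{m_i}` is 1-symmetric, or it is invariant under `X ↦ U X` on matrices, so it satisfies the Poincare
inequality of the starting results `OneSymmetric` and `OrthogonalInvariant`. In the second case the
covariance matrix is `I ⊗ A`; the right multiplication by `B⁻¹`, `A = Bᵀ B`, preserves the invariance
and makes it the identity. This gives for both kinds the affine invariant inequality
`Var f ≤ C E Var (⟪∇ f, Y⟫)`, `Y` a copy of the random vector, with an absolute constant. (2) This
inequality tensorises (Efron-Stein) and passes to linear images. So it holds for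
`exp (-∑ M_i(x_i)^p)`, for any number of blocks, and for products of unit balls. (3) A density
`exp (-Φ)`, `Φ` homogeneous of degree `p`, is a mixture of the uniform measures on the dilates of
`{Φ ≤ 1}`, and the radial variable is concentrated; so the concentration on a constant scale, relative
to the covariance, passes to `{Φ ≤ 1}`. The steps from concentration to linear images with kernels of
bounded dimension and to the isoperimetric inequality are those of the starting result
`ImagesOfSections` (modules `Y506.PV`). The central section is compared with the perimeter by the modules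
`KH` of the starting files.
-/

set_option autoImplicit false

namespace Pool.Agent.Results.MP_dc1397_gt.DirectSums

open MeasureTheory Set
open scoped ENNReal InnerProductSpace

/-- Euclidean space of dimension `n` -/
abbrev Euc (n : ℕ) : Type := EuclideanSpace ℝ (Fin n)

/-- a norm on `ℝ^m` -/
structure IsNorm {m : ℕ} (M : Euc m → ℝ) : Prop where
  smul : ∀ (r : ℝ) (x : Euc m), M (r • x) = |r| * M x
  add_le : ∀ x y, M (x + y) ≤ M x + M y
  pos : ∀ x, x ≠ 0 → 0 < M x

/-- `M` does not change when the coordinates are permuted and when their signs are changed -/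
def OneSymmetric {m : ℕ} (M : Euc m → ℝ) : Prop :=
  ∀ (σ : Equiv.Perm (Fin m)) (x y : Euc m), (∀ i, |y i| = |x (σ i)|) → M y = M x

/-- after a linear identification `e` of `ℝ^m` with the real `a × b` matrices, `3 ≤ a`, `1 ≤ b ≤ a`, the
function `M` does not change when a matrix `X` is replaced by `U X`, `U` orthogonal -/
def LeftInvariant {m : ℕ} (M : Euc m → ℝ) : Prop :=
  ∃ (a b : ℕ) (e : Euc m ≃ₗ[ℝ] Matrix (Fin a) (Fin b) ℝ), 3 ≤ a ∧ 1 ≤ b ∧ b ≤ a ∧
    ∀ U ∈ Matrix.orthogonalGroup (Fin a) ℝ, ∀ x, M (e.symm (U * e x)) = M x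

/-- the bodies `{x | ∑_{i < N} M_i(x_i)^p ≤ 1}` and `{x | M_i(x_i) ≤ 1 for all i < N}`, `N` arbitrary,
where `x ↦ (x_i)` is a linear isomorphism of `ℝ^d` and `∏ ℝ^{m_i}`, `m_i ≥ 1`, and every norm `M_i` is
`OneSymmetric` or `LeftInvariant` -/
def DirectSum (p : ℝ) {d : ℕ} (K : Set (Euc d)) : Prop :=
  ∃ (N : ℕ) (m : Fin N → ℕ) (M : ∀ i, Euc (m i) → ℝ) (L : Euc d ≃ₗ[ℝ] (∀ i, Euc (m i))),
    (∀ i, 1 ≤ m i) ∧ (∀ i, IsNorm (M i)) ∧ (∀ i, OneSymmetric (M i) ∨ LeftInvariant (M i)) ∧
    (K = {x | ∑ i, M i (L x i) ^ p ≤ 1} ∨ K = {x | ∀ i, M i (L x i) ≤ 1})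

/-- the Lebesgue measure of a Euclidean space -/
noncomputable def lebesgue (F : Type) [NormedAddCommGroup F] [InnerProductSpace ℝ F]
    [FiniteDimensional ℝ F] [MeasurableSpace F] [BorelSpace F] : Measure F := volume

/-- the Lebesgue measure (of the Euclidean space `W`) of the section `Ω ∩ W` by a subspace `W` -/
noncomputable def areaIn {F : Type} [NormedAddCommGroup F] [InnerProductSpace ℝ F]
    [FiniteDimensional ℝ F] [MeasurableSpace F] [BorelSpace F] (W : Submodule ℝ F) (Ω : Set F) :
    ℝ≥0∞ := lebesgue W {y : W | (y : F) ∈ Ω}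

section defs

variable {κ : Type} [Fintype κ]

open Classical in
/-- divergence of a vector field on `ℝ^κ` -/
noncomputable def divergence (X : EuclideanSpace ℝ κ → EuclideanSpace ℝ κ)
    (x : EuclideanSpace ℝ κ) : ℝ :=
  ∑ i, fderiv ℝ X x (EuclideanSpace.single i 1) i

/-- `C¹` vector fields with compact support in `Ω` and `‖X‖ ≤ 1` -/
structure Test (Ω : Set (EuclideanSpace ℝ κ)) (X : EuclideanSpace ℝ κ → EuclideanSpace ℝ κ) :
    Prop where
  diff : ContDiff ℝ 1 X
  comp : HasCompactSupport X
  sub : tsupport X ⊆ Ω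
  le : ∀ x, ‖X x‖ ≤ 1

/-- the (De Giorgi) perimeter `P(E; Ω)` of `E` relative to the open set `Ω` -/
noncomputable def perimeter (E Ω : Set (EuclideanSpace ℝ κ)) : ℝ≥0∞ :=
  ⨆ (X : EuclideanSpace ℝ κ → EuclideanSpace ℝ κ) (_ : Test Ω X),
    ENNReal.ofReal (∫ x in E, divergence X x)

/-- the area (Lebesgue measure in the hyperplane `a^⊥`) of the central section of `Ω` by `a^⊥` -/
noncomputable def sectionArea (Ω : Set (EuclideanSpace ℝ κ)) (a : EuclideanSpace ℝ κ) : ℝ≥0∞ :=
  areaIn (Submodule.span ℝ {a})ᗮ Ω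

/-- some central hyperplane section has area at most `C P(E; Ω)` for every measurable `E ⊆ Ω` with
`|E| = |Ω| / 2` -/
def HyperplaneBound (C : ℝ) (Ω : Set (EuclideanSpace ℝ κ)) : Prop :=
  ∃ a : EuclideanSpace ℝ κ, a ≠ 0 ∧ ∀ E : Set (EuclideanSpace ℝ κ), MeasurableSet E → E ⊆ Ω →
    volume E = volume Ω / 2 → sectionArea Ω a ≤ ENNReal.ofReal C * perimeter E Ω

/-- the perimeter is the one used in the proof -/
theorem perimeter_eq (E Ω : Set (EuclideanSpace ℝ κ)) :
    Pool.Agent.W695.KH.per E Ω = perimeter E Ω := by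
  unfold perimeter Pool.Agent.W695.KH.per
  refine iSup_congr fun X => ?_
  refine iSup_congr_Prop ⟨fun h => ⟨h.1, h.2.1, h.2.2.1, h.2.2.2⟩,
    fun h => ⟨h.diff, h.comp, h.sub, h.le⟩⟩ fun _ => rfl

end defs

theorem cls_of {p : ℝ} {m : ℕ} {K : Set (Euc m)} (h : DirectSum p K) :
    Pool.Agent.X166.DS.Cls p m K := by
  obtain ⟨N, m, M, L, hm, hM, hB, hK⟩ := h
  exact ⟨N, m, M, L, hm, fun i => ⟨(hM i).smul, (hM i).add_le, (hM i).pos⟩, hB, hK⟩

/-- the functional inequality for affine images -/
theorem star_of {c : ℝ} {r : ℕ} {p : ℝ} (H : ∀ (n m : ℕ) (K : Set (Euc m))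
    (A : Euc m →ₗ[ℝ] Euc n), 1 ≤ n → m ≤ n + r → Pool.Agent.X166.DS.Cls p m K →
    Function.Surjective A → IsCompact (A '' K) ∧ Convex ℝ (A '' K) ∧ (interior (A '' K)).Nonempty ∧
    Pool.Agent.Y506.RG.Star c (Pool.Agent.Y506.PV.ind (A '' K))) {m n : ℕ} {K : Set (Euc m)}
    (T : Euc m →ᵃ[ℝ] Euc n) (hn : 1 ≤ n) (hm : m ≤ n + r) (hK : DirectSum p K)
    (hT : Function.Surjective T) : IsCompact (T '' K) ∧ Convex ℝ (T '' K) ∧
    (interior (T '' K)).Nonempty ∧
    Pool.Agent.Y506.RG.Star c (Pool.Agent.Y506.PV.ind (T '' K)) := by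
  have hTL : ∀ x, T x = T.linear x + T 0 := fun x => by
    have h := T.map_vadd 0 x
    simpa [vadd_eq_add] using h
  have hA : Function.Surjective T.linear := by
    intro y
    obtain ⟨x, hx⟩ := hT (y + T 0)
    refine ⟨x, ?_⟩
    have h := hTL x
    rw [hx] at h
    exact (add_right_cancel h).symm
  obtain ⟨h1, h2, h3, h4⟩ := H n m K T.linear hn hm (cls_of hK) hA
  have he : T '' K = (fun y => y + T 0) '' (T.linear '' K) := by
    rw [image_image]
    exact image_congr fun x _ => hTL x
  have hcp : IsCompact (T '' K) := by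
    rw [he]
    exact h1.image (by fun_prop)
  refine ⟨hcp, ?_, ?_, ?_⟩
  · rw [he]
    have h := h2.translate (T 0)
    have e : (fun y => y + T 0) = fun y => T 0 + y := funext fun y => add_comm _ _
    rw [e]
    exact h
  · rw [he]
    have hop : IsOpen ((fun y => y + T 0) '' interior (T.linear '' K)) :=
      (Homeomorph.addRight (T 0)).isOpenMap _ isOpen_interior
    exact (h3.image _).mono (interior_maximal (image_mono interior_subset) hop)
  · rw [he]
    exact Pool.Agent.Y506.PV.star_trans _ _ (Pool.Agent.Y506.PV.adm_ind _ h1.measurableSet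
      h1.isBounded (Pool.Agent.Y506.PV.vol_pos h3)) h4

/-- **The hyperplane conjecture for `ℓ_p` sums of symmetric blocks.** For all `r` and `p ≥ 1` there is a
constant `C > 0` such that for all `n ≥ 1`, all affine maps `T` of `ℝ^m` onto `ℝⁿ`, `m ≤ n + r`, and all
bodies `K ⊂ ℝ^m` of the class `DirectSum p` for which `T '' K` is symmetric, the interior `Ω` of `T '' K` has
a central hyperplane section `Ω ∩ a^⊥` with `H_{n-1}(Ω ∩ a^⊥) ≤ C P(E; Ω)` for every measurable `E ⊆ Ω`
with `|E| = |Ω| / 2`. -/
theorem result : ∀ (r : ℕ) (p : ℝ), 1 ≤ p → ∃ C : ℝ, 0 < C ∧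
    ∀ (m n : ℕ) (K : Set (Euc m)) (T : Euc m →ᵃ[ℝ] Euc n), 1 ≤ n → m ≤ n + r →
    DirectSum p K → Function.Surjective T → (∀ x ∈ T '' K, -x ∈ T '' K) →
    HyperplaneBound C (interior (T '' K)) := by
  intro r p hp
  obtain ⟨c, hc, H⟩ := Pool.Agent.X166.DS.fin_ds r p hp
  obtain ⟨C, hC, H'⟩ := Pool.Agent.Y151.PV.hyp
  refine ⟨C * c, by positivity, fun m n K T hn hm hK hT hs => ?_⟩
  obtain ⟨h1, h2, h3, h4⟩ := star_of H T hn hm hK hT
  obtain ⟨P, hP⟩ : ∃ P : Set (Euc n), P = T '' K := ⟨_, rfl⟩
  rw [← hP] at h1 h2 h3 h4 hs ⊢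
  have hcl : closure (interior P) = P := by
    rw [h2.closure_interior_eq_closure_of_nonempty_interior h3, h1.isClosed.closure_eq]
  have hsi : ∀ x ∈ interior P, -x ∈ interior P := by
    intro x hx
    have hop : IsOpen ((fun y => -y) ⁻¹' interior P) := isOpen_interior.preimage continuous_neg
    have hsub : (fun y => -y) ⁻¹' interior P ⊆ P := by
      intro y hy
      have := hs _ (interior_subset hy)
      rwa [neg_neg] at this
    exact interior_maximal hsub hop (by simpa using hx)
  have h0 : (0 : Euc n) ∈ interior P := by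
    obtain ⟨x, hx⟩ := h3
    have h := h2.interior hx (hsi x hx) (by norm_num : (0 : ℝ) ≤ 1 / 2)
      (by norm_num : (0 : ℝ) ≤ 1 / 2) (by norm_num)
    rwa [smul_neg, add_neg_cancel] at h
  obtain ⟨a, ha, h⟩ := H' n hn (interior P) isOpen_interior h2.interior
    (h1.isBounded.subset interior_subset) h0 hsi c hc (by rw [hcl]; exact h4)
  refine ⟨a, ha, fun E hE hEΩ hvol => ?_⟩
  rw [← perimeter_eq]
  by_cases hp : Pool.Agent.W695.KH.per E (interior P) = ⊤
  · rw [hp, ENNReal.mul_top (ENNReal.ofReal_pos.2 (by positivity)).ne']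
    exact le_top
  · refine (h E hE hEΩ hvol _ (Pool.Agent.W695.KH.perLe_toReal E _ hp)).trans (le_of_eq ?_)
    rw [ENNReal.ofReal_mul (by positivity), ENNReal.ofReal_toReal hp]

end Pool.Agent.Results.MP_dc1397_gt.DirectSums
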