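import Pool.Agent.W695.KH.Final
import Pool.Agent.W695.KH.Per
import Pool.Agent.W695.KH.Wrap
import Pool.Agent.X43.RF.E

/-!
# The hyperplane conjecture of Kannan, Lovasz and Simonovits for convex sets with radial blocks of
vectors and free coordinates

For all symmetric open bounded convex sets in `(ℝ^{m_1})^{k_1} × ⋯ × (ℝ^{m_b})^{k_b} × ℝ^q` for which
membership depends on the first coordinates only through the norms of the vectors and does not change
when the vectors of the same block are permuted; besides `Ω = -Ω` there is no condition on the `q`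
free coordinates.

The best central hyperplane cut is at most `C (1 + T) √K` times the perimeter of any set of half the
volume, whenever `∑_β exp (- T k_β m_β) ≤ 1`, where `K = q` unconditionally, or `K` is the constant in
the KLS inequality for the log-concave densities on `ℝ^q`, or, if `Ω` is also invariant under a set `Γ`
of isometries of the free coordinates, for the `Γ`-invariant log-concave densities on `ℝ^q`.

Method: the weak Poincare inequality behind `Pool.Agent.Results.MP_6d896a_gt.FreeDirections` and the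
formalised implication from Poincare to Cheeger inequalities, the De Giorgi perimeter by mollification
and the bound for the central section of an even log-concave marginal of the starting files (modules
`KH`).
-/

set_option autoImplicit false

namespace Pool.Agent.Results.MP_dc1397_gt.FreeDirections

open MeasureTheory Set
open scoped ENNReal InnerProductSpace

/-- `b` blocks, the block `β` consists of `k β` vectors of `ℝ^{m β}`, and `q` free coordinates:
`x (inl ⟨β, j, i⟩)` is the coordinate `i` of the vector `j` of the block `β`, `x (inr i)` the free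
coordinate `i` -/
abbrev Space (b : ℕ) (k m : Fin b → ℕ) (q : ℕ) : Type :=
  EuclideanSpace ℝ ((Σ β : Fin b, Fin (k β) × Fin (m β)) ⊕ Fin q)

/-- `ℝ^q` -/
abbrev E (q : ℕ) : Type := EuclideanSpace ℝ (Fin q)

/-- the Euclidean norm of the vector `j` of the block `β` -/
noncomputable def vecNorm {b q : ℕ} {k m : Fin b → ℕ} (x : Space b k m q) (β : Fin b)
    (j : Fin (k β)) : ℝ := Real.sqrt (∑ i, x (Sum.inl ⟨β, j, i⟩) ^ 2)

/-- the free coordinates -/
noncomputable def free {b q : ℕ} {k m : Fin b → ℕ} (x : Space b k m q) : E q :=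
  WithLp.toLp 2 fun i => x (Sum.inr i)

/-- `Ω = -Ω`, membership in `Ω` depends on the coordinates in the blocks only through the norms of the
vectors, does not change when the vectors inside the blocks are permuted, and does not change under
the isometries in `Γ` of the free coordinates. -/
structure Invariant {b q : ℕ} {k m : Fin b → ℕ} (Γ : Set (E q ≃ₗᵢ[ℝ] E q))
    (Ω : Set (Space b k m q)) : Prop where
  radial : ∀ σ : ∀ β, Equiv.Perm (Fin (k β)), ∀ x y : Space b k m q,
    (∀ β j, vecNorm y β j = vecNorm x β (σ β j)) → free y = free x → (x ∈ Ω ↔ y ∈ Ω)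
  inv : ∀ g ∈ Γ, ∀ x y : Space b k m q, (∀ i, y (Sum.inl i) = x (Sum.inl i)) →
    free y = g (free x) → (x ∈ Ω ↔ y ∈ Ω)
  symm : ∀ x ∈ Ω, -x ∈ Ω

/-- the Lebesgue measure of a Euclidean space -/
noncomputable def lebesgue (F : Type) [NormedAddCommGroup F] [InnerProductSpace ℝ F]
    [FiniteDimensional ℝ F] [MeasurableSpace F] [BorelSpace F] : Measure F := volume

/-- the Lebesgue measure (of the Euclidean space `W`) of the section `Ω ∩ W` by a subspace `W` -/
noncomputable def areaIn {F : Type} [NormedAddCommGroup F] [InnerProductSpace ℝ F]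
    [FiniteDimensional ℝ F] [MeasurableSpace F] [BorelSpace F] (W : Submodule ℝ F) (Ω : Set F) :
    ℝ≥0∞ := lebesgue W {y : W | (y : F) ∈ Ω}

section defs

variable {κ : Type} [Fintype κ]

/-- an open, convex, bounded, nonempty set -/
structure Domain (Ω : Set (EuclideanSpace ℝ κ)) : Prop where
  op : IsOpen Ω
  conv : Convex ℝ Ω
  bdd : Bornology.IsBounded Ω
  ne : Ω.Nonempty

open Classical in
/-- divergence of a vector field on `ℝ^κ` -/
noncomputable def divergence (X : EuclideanSpace ℝ κ → EuclideanSpace ℝ κ)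
    (x : EuclideanSpace ℝ κ) : ℝ :=
  ∑ i, fderiv ℝ X x (EuclideanSpace.single i 1) i

/-- `C¹` vector fields with compact support in `Ω` and `‖X‖ ≤ 1` -/
structure Test (Ω : Set (EuclideanSpace ℝ κ)) (X : EuclideanSpace ℝ κ → EuclideanSpace ℝ κ) :
    Prop where
  diff : ContDiff ℝ 1 X
  comp : HasCompactSupport X
  sub : tsupport X ⊆ Ω
  le : ∀ x, ‖X x‖ ≤ 1

/-- the (De Giorgi) perimeter `P(E; Ω)` of `E` relative to the open set `Ω` -/
noncomputable def perimeter (E Ω : Set (EuclideanSpace ℝ κ)) : ℝ≥0∞ :=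
  ⨆ (X : EuclideanSpace ℝ κ → EuclideanSpace ℝ κ) (_ : Test Ω X),
    ENNReal.ofReal (∫ x in E, divergence X x)

/-- the area (Lebesgue measure in the hyperplane `a^⊥`) of the central section of `Ω` by `a^⊥` -/
noncomputable def sectionArea (Ω : Set (EuclideanSpace ℝ κ)) (a : EuclideanSpace ℝ κ) : ℝ≥0∞ :=
  areaIn (Submodule.span ℝ {a})ᗮ Ω

/-- some central hyperplane section has area at most `K P(E; Ω)` for every measurable `E ⊆ Ω` with
`|E| = |Ω| / 2` -/
def HyperplaneBound (K : ℝ) (Ω : Set (EuclideanSpace ℝ κ)) : Prop :=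
  ∃ a : EuclideanSpace ℝ κ, a ≠ 0 ∧ ∀ E : Set (EuclideanSpace ℝ κ), MeasurableSet E → E ⊆ Ω →
    volume E = volume Ω / 2 → sectionArea Ω a ≤ ENNReal.ofReal K * perimeter E Ω

/-- the perimeter is the one used in the proof -/
theorem perimeter_eq (E Ω : Set (EuclideanSpace ℝ κ)) :
    Pool.Agent.W695.KH.per E Ω = perimeter E Ω := by
  unfold perimeter Pool.Agent.W695.KH.per
  refine iSup_congr fun X => ?_
  refine iSup_congr_Prop ⟨fun h => ⟨h.1, h.2.1, h.2.2.1, h.2.2.2⟩,
    fun h => ⟨h.diff, h.comp, h.sub, h.le⟩⟩ fun _ => rfl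

end defs

/-- `Var ⟪θ, X⟫ ≤ s ‖θ‖²` for all `θ`: the covariance matrix of `μ` has norm at most `s`. -/
def CovLe {κ : Type} [Fintype κ] (μ : Measure (EuclideanSpace ℝ κ)) (s : ℝ) : Prop :=
  ∀ θ : EuclideanSpace ℝ κ, ProbabilityTheory.evariance (fun x => ⟪θ, x⟫_ℝ) μ ≤
    ENNReal.ofReal (s * ‖θ‖ ^ 2)

/-- `ρ` is a log-concave density on `ℝ^q` invariant under the isometries in `Γ`. -/
structure FreeDensity {q : ℕ} (Γ : Set (E q ≃ₗᵢ[ℝ] E q)) (ρ : E q → ℝ) : Prop where
  nonneg : ∀ x, 0 ≤ ρ x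
  meas : Measurable ρ
  logc : ∀ x y, ∀ t : ℝ, 0 < t → t < 1 → ρ x ^ (1 - t) * ρ y ^ t ≤ ρ ((1 - t) • x + t • y)
  inv : ∀ g ∈ Γ, ∀ x, ρ (g x) = ρ x

/-- the KLS inequality (spectral gap) with the constant `K` for the log-concave probability densities
of bounded support on `ℝ^q` invariant under the isometries in `Γ`: `Var f ≤ K s E ‖∇ f‖²` when the
covariance matrix has norm at most `s` -/
def KLS {q : ℕ} (Γ : Set (E q ≃ₗᵢ[ℝ] E q)) (K : ℝ) : Prop :=
  ∀ ρ : E q → ℝ, FreeDensity Γ ρ → (∃ R : ℝ, ∀ x, R < ‖x‖ → ρ x = 0) → ∀ μ : Measure (E q),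
    μ = volume.withDensity (fun x => ENNReal.ofReal (ρ x)) → IsProbabilityMeasure μ →
    ∀ s : ℝ, 0 < s → CovLe μ s → ∀ f : E q → ℝ, ContDiff ℝ 1 f →
      ProbabilityTheory.variance f μ ≤ K * s * ∫ x, ‖fderiv ℝ f x‖ ^ 2 ∂μ

/-- **The hyperplane conjecture for convex sets with radial blocks of vectors and free coordinates.**
There is an absolute constant `C` such that for all `b ≥ 1`, `q ≥ 0`, all `k β, m β ≥ 1` (`β < b`), all
`T ≥ 0` with `∑_β exp (- T k_β m_β) ≤ 1`, every set `Γ` of linear isometries of `ℝ^q` (for example the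
empty set), every `K ≥ 1` with `q ≤ K`, or such that the KLS inequality holds with the constant `K` for
the `Γ`-invariant densities on `ℝ^q`, and every nonempty open bounded convex set `Ω = -Ω` in
`∏_β (ℝ^{m β})^{k β} × ℝ^q` for which membership depends on the coordinates in the blocks only through
the norms of the vectors, is symmetric inside the blocks and `Γ`-invariant in the free coordinates,
there is a central hyperplane `a^⊥` such that for every measurable `E ⊆ Ω` with `|E| = |Ω| / 2`: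
`H(Ω ∩ a^⊥) ≤ C (1 + T) √K P(E; Ω)`, with `H` the Lebesgue measure of the hyperplane. -/
theorem result : ∃ C : ℝ, 0 < C ∧ ∀ (b : ℕ) (k m : Fin b → ℕ) (q : ℕ), 1 ≤ b → (∀ β, 1 ≤ k β) →
    (∀ β, 1 ≤ m β) → ∀ T : ℝ, 0 ≤ T → ∑ β, Real.exp (-(T * (k β * m β))) ≤ 1 →
    ∀ (Γ : Set (E q ≃ₗᵢ[ℝ] E q)) (K : ℝ), 1 ≤ K → (q : ℝ) ≤ K ∨ KLS Γ K →
    ∀ Ω : Set (Space b k m q), Domain Ω → Invariant Γ Ω →
    HyperplaneBound (C * ((1 + T) * Real.sqrt K)) Ω := by
  obtain ⟨C, hC, H⟩ := Pool.Agent.W695.KH.final Pool.Agent.W695.KH.main Pool.Agent.W695.KH.proj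
  obtain ⟨C₂, hC₂1, h₂⟩ := Pool.Agent.X43.RF.weakJ
  have hC₂ : 0 < C₂ := by linarith
  refine ⟨C * Real.sqrt C₂, by positivity, ?_⟩
  intro b k m q hb hk hm T hT0 hT Γ K hK hor Ω hΩ hinv
  obtain ⟨hop, hco, hbd, hne⟩ := hΩ
  have hyp : Pool.Agent.X43.RF.Hyp b k m T q Γ K := by
    refine ⟨hk, hm, hT0, hT, hK, ?_⟩
    refine hor.imp id fun h => ?_
    intro ρ' h1 h2 h3 h4 h5 h6 s' hs' hcov' g hg
    exact h ρ' ⟨h1, h2, h3, h4⟩ h5 _ rfl ⟨h6⟩ s' hs' hcov' g hg
  have hfac : 0 < C₂ * (1 + T) ^ 2 * K := by positivity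
  have hne' : Nonempty ((Σ β : Fin b, Fin (k β) × Fin (m β)) ⊕ Fin q) :=
    ⟨Sum.inl ⟨⟨0, hb⟩, ⟨0, hk _⟩, ⟨0, hm _⟩⟩⟩
  have h0 : (0 : Space b k m q) ∈ Ω := by
    obtain ⟨x, hx⟩ := hne
    have h1 := hco hx (hinv.symm x hx) (by norm_num : (0 : ℝ) ≤ 1 / 2)
      (by norm_num : (0 : ℝ) ≤ 1 / 2) (by norm_num)
    simpa using h1
  have hD := Pool.Agent.X43.RF.set_of (Γ := Γ) (D := Ω)
    (fun F x y h1 h2 => hinv.radial F x y h1 (by
      ext j
      exact h2 j)) fun g hg x y h1 h2 => hinv.inv g hg x y h1 h2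
  obtain ⟨a, ha, h⟩ := H ((Σ β : Fin b, Fin (k β) × Fin (m β)) ⊕ Fin q) Ω hop hco hbd h0 hinv.symm
    (C₂ * (1 + T) ^ 2 * K) hfac (by
      intro r A hr hr1 hA hprob hnn hmeas hlc hiso s hs hcov v hv hvb
      exact h₂ b k m T q Γ K hyp Ω hD _ hnn hmeas hlc hiso hprob s hs hcov v hv hvb)
  refine ⟨a, ha, fun E hE hEΩ hvol => ?_⟩
  have h4 := h E hE hEΩ hvol
  rw [perimeter_eq] at h4
  have e : C * Real.sqrt (C₂ * (1 + T) ^ 2 * K) = C * Real.sqrt C₂ * ((1 + T) * Real.sqrt K) := by
    rw [Real.sqrt_mul (by positivity), Real.sqrt_mul (by positivity), Real.sqrt_sq (by linarith)]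
    ring
  rw [e] at h4
  exact h4

end Pool.Agent.Results.MP_dc1397_gt.FreeDirections
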